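import Mathlib.GroupTheory.Perm.Fin
import Mathlib.GroupTheory.QuotientGroup.Basic
import Mathlib.Order.Filter.Ultrafilter.Basic
import Mathlib.Order.Filter.Cofinite

/-!
# A bounded torsion group which is not an image of an ultraproduct (MP_d8de41_al, Q1)

Let `H` be the group of the finitely supported sequences in the symmetric group of degree three.
If a nonprincipal ultraproduct over `ω` maps onto `H`, then all the systems of equations
`h_i = w_i(f_i, h_{i+1})`, `i = 0, 1, 2, …`, with `f_i ∈ H` and words `w_i`, have solutions in `H`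
(in the product one solves the first `n` equations at the coordinate `n`, by backward recursion).
Take `w_{2j}(f, x) = f x` and `w_{2j+1}(f, x) = x² f x⁻¹ f⁻¹`, let `f_{2j}` be a 3-cycle `c⁻¹` and
`f_{2j+1}` a transposition `t` at the coordinate `j`, both trivial elsewhere. Trivial `f_i` give
`h_i = h_{i+1}` and `x² t x⁻¹ t⁻¹` is never equal to `c`, so that `h_0` is nontrivial at all the
coordinates, a contradiction.
-/

set_option autoImplicit false

namespace Pool.Agent.Results.MP_d8de41_al.SymThreePower

universe u v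

/-- The normal subgroup of the sequences which are equal to the identity on a set in `U`. -/
def ultraKernel (G : ℕ → Type u) [∀ i, Group (G i)] (U : Ultrafilter ℕ) : Subgroup (∀ i, G i) where
  carrier := {g | {i | g i = 1} ∈ U}
  one_mem' := by
    have h : {i | (1 : ∀ i, G i) i = 1} = Set.univ := Set.eq_univ_of_forall fun _ => rfl
    show {i | (1 : ∀ i, G i) i = 1} ∈ U
    rw [h]
    exact Filter.univ_mem
  mul_mem' := by
    intro a b ha hb
    filter_upwards [ha, hb] with i hi hi'
    rw [Pi.mul_apply, hi, hi', one_mul]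
  inv_mem' := by
    intro a ha
    filter_upwards [ha] with i hi
    rw [Pi.inv_apply, hi, inv_one]

instance ultraKernel_normal (G : ℕ → Type u) [∀ i, Group (G i)] (U : Ultrafilter ℕ) :
    (ultraKernel G U).Normal where
  conj_mem := by
    intro a ha b
    show {i | (b * a * b⁻¹) i = 1} ∈ U
    have ha' : {i | a i = 1} ∈ U := ha
    filter_upwards [ha'] with i hi
    rw [Pi.mul_apply, Pi.mul_apply, Pi.inv_apply, hi, mul_one, mul_inv_cancel]

/-- The ultraproduct of the groups `G i` with respect to `U`. -/
abbrev Ultraproduct (G : ℕ → Type u) [∀ i, Group (G i)] (U : Ultrafilter ℕ) : Type u :=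
  (∀ i, G i) ⧸ ultraKernel G U

/-- `H` is a homomorphic image of an ultraproduct of a sequence of groups with respect to a
nonprincipal ultrafilter. -/
def IsUiGroup (H : Type v) [Group H] : Prop :=
  ∃ (G : ℕ → Type u) (_ : ∀ i, Group (G i)) (U : Ultrafilter ℕ),
    (∀ n, U ≠ pure n) ∧ ∃ φ : Ultraproduct G U →* H, Function.Surjective φ

/-- The group of the finitely supported sequences in the symmetric group of degree three. -/
def S3omega : Subgroup (ℕ → Equiv.Perm (Fin 3)) where
  carrier := {f | {j | f j ≠ 1}.Finite}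
  one_mem' := by simp
  mul_mem' := by
    intro a b ha hb
    refine (Set.Finite.union ha hb).subset ?_
    intro j hj
    by_contra hcon
    simp only [Set.mem_union, Set.mem_ofPred_eq, not_or, not_not] at hcon
    exact hj (by rw [Pi.mul_apply, hcon.1, hcon.2, one_mul])
  inv_mem' := by
    intro a ha
    refine Set.Finite.subset ha ?_
    intro j hj hcon
    exact hj (by rw [Pi.inv_apply, hcon, inv_one])

/-- The words of the system. -/
def word {K : Type u} [Group K] (i : ℕ) (f x : K) : K :=
  if i % 2 = 0 then f * x else x ^ 2 * f * x⁻¹ * f⁻¹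

lemma map_word {K : Type u} {L : Type v} [Group K] [Group L] (φ : K →* L) (i : ℕ) (f x : K) :
    φ (word i f x) = word i (φ f) (φ x) := by
  unfold word
  split_ifs <;> simp

lemma word_one {K : Type u} [Group K] (i : ℕ) (x : K) : word i 1 x = x := by
  unfold word
  split_ifs
  · simp
  · rw [mul_one, inv_one, mul_one, pow_two, mul_assoc, mul_inv_cancel, mul_one]

/-- The solution of the first equations. -/
def sol {K : Type u} [Group K] (F : ℕ → K) (n : ℕ) : ℕ → K
  | 0 => 1
  | (d + 1) => word (n - d) (F (n - d)) (sol F n d)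

/-- Higman completeness of the images of ultraproducts. -/
lemma exists_solution {H : Type v} [Group H] (hH : IsUiGroup.{u} H) (f : ℕ → H) :
    ∃ h : ℕ → H, ∀ i, h i = word i (f i) (h (i + 1)) := by
  obtain ⟨G, _, U, hU, φ, hφ⟩ := hH
  let ψ : (∀ i, G i) →* H := φ.comp (QuotientGroup.mk' (ultraKernel G U))
  have hψ : Function.Surjective ψ := hφ.comp (QuotientGroup.mk'_surjective _)
  have hker : ∀ a b : ∀ i, G i, {n | a n = b n} ∈ U → ψ a = ψ b := by
    intro a b hab
    show φ (QuotientGroup.mk' _ a) = φ (QuotientGroup.mk' _ b)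
    congr 1
    rw [QuotientGroup.mk'_eq_mk']
    refine ⟨a⁻¹ * b, ?_, by rw [mul_inv_cancel_left]⟩
    show {n | (a⁻¹ * b) n = 1} ∈ U
    filter_upwards [hab] with n hn
    rw [Pi.mul_apply, Pi.inv_apply, hn, inv_mul_cancel]
  choose F hF using fun i => hψ (f i)
  -- the coordinate `n` of the `i`-th unknown
  let h : ℕ → ∀ n, G n := fun i n => sol (fun i => F i n) n (n + 1 - i)
  refine ⟨fun i => ψ (h i), fun i => ?_⟩
  have hUc : (U : Filter ℕ) ≤ Filter.cofinite := by
    rcases U.le_cofinite_or_eq_pure with h | ⟨n, hn⟩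
    · exact h
    · exact absurd hn (hU n)
  have hset : {n | i ≤ n} ∈ U := by
    apply hUc
    rw [Filter.mem_cofinite]
    refine (Set.finite_Iio i).subset ?_
    intro n hn
    simpa using hn
  have h1 : ψ (h i) = ψ (fun n => word i (F i n) (h (i + 1) n)) := by
    apply hker
    filter_upwards [hset] with n hn
    show sol (fun i => F i n) n (n + 1 - i) = word i (F i n) (sol (fun i => F i n) n (n + 1 - (i + 1)))
    have e1 : n + 1 - i = (n - i) + 1 := by omega
    have e2 : n + 1 - (i + 1) = n - i := by omega
    have e3 : n - (n - i) = i := by omega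
    rw [e1, e2]
    show word (n - (n - i)) (F (n - (n - i)) n) _ = _
    rw [e3]
  have h2 : (fun n => word i (F i n) (h (i + 1) n)) = word i (F i) (h (i + 1)) := by
    funext n
    exact (map_word (Pi.evalMonoidHom G n) i (F i) (h (i + 1))).symm
  show ψ (h i) = word i (f i) (ψ (h (i + 1)))
  rw [h1, h2, map_word, hF]

/-- the coefficients of the system -/
def coef (i : ℕ) : S3omega :=
  ⟨Pi.mulSingle (i / 2) (if i % 2 = 0 then (finRotate 3)⁻¹ else Equiv.swap 0 1), by
    refine (Set.finite_singleton (i / 2)).subset ?_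
    intro j hj
    by_contra hcon
    exact hj (Pi.mulSingle_eq_of_ne hcon _)⟩

lemma no_solution : ∀ x : Equiv.Perm (Fin 3),
    (finRotate 3)⁻¹ * (x ^ 2 * Equiv.swap 0 1 * x⁻¹ * (Equiv.swap 0 1)⁻¹) ≠ 1 := by
  decide +kernel

/-- The group of the finitely supported sequences in the symmetric group of degree three has
exponent dividing six, and it is not a homomorphic image of a nonprincipal ultraproduct over `ω`
of groups. -/
theorem result : (∀ h : S3omega, h ^ 6 = 1) ∧ ¬ IsUiGroup.{u} S3omega := by
  constructor
  · intro h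
    apply Subtype.ext
    funext j
    have : ∀ x : Equiv.Perm (Fin 3), x ^ 6 = 1 := by decide +kernel
    exact this _
  · intro hH
    obtain ⟨h, hh⟩ := exists_solution hH coef
    -- the equations at the coordinate `j`
    have hj : ∀ i j, (h i : ℕ → Equiv.Perm (Fin 3)) j =
        word i ((coef i : ℕ → Equiv.Perm (Fin 3)) j) ((h (i + 1) : ℕ → Equiv.Perm (Fin 3)) j) := by
      intro i j
      have h1 := congrArg (fun x : S3omega => (x : ℕ → Equiv.Perm (Fin 3)) j) (hh i)
      have h2 := map_word ((Pi.evalMonoidHom (fun _ : ℕ => Equiv.Perm (Fin 3)) j).comp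
        S3omega.subtype) i (coef i) (h (i + 1))
      exact h1.trans h2
    have hconst : ∀ j i, i ≤ 2 * j → (h 0 : ℕ → Equiv.Perm (Fin 3)) j = (h i : ℕ → Equiv.Perm (Fin 3)) j := by
      intro j i
      induction i with
      | zero => intro _; rfl
      | succ i ih =>
        intro hi
        rw [ih (by omega), hj i j]
        have hne : j ≠ i / 2 := by omega
        have h3 : (coef i : ℕ → Equiv.Perm (Fin 3)) j = 1 := Pi.mulSingle_eq_of_ne hne _
        rw [h3, word_one]
    have hne : ∀ j, (h 0 : ℕ → Equiv.Perm (Fin 3)) j ≠ 1 := by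
      intro j
      rw [hconst j (2 * j) le_rfl, hj (2 * j) j, hj (2 * j + 1) j]
      have e1 : (coef (2 * j) : ℕ → Equiv.Perm (Fin 3)) j = (finRotate 3)⁻¹ := by
        show (Pi.mulSingle (2 * j / 2) _ : ℕ → Equiv.Perm (Fin 3)) j = _
        rw [show 2 * j / 2 = j by omega, Pi.mulSingle_eq_same, if_pos (by omega)]
      have e2 : (coef (2 * j + 1) : ℕ → Equiv.Perm (Fin 3)) j = Equiv.swap 0 1 := by
        show (Pi.mulSingle ((2 * j + 1) / 2) _ : ℕ → Equiv.Perm (Fin 3)) j = _
        rw [show (2 * j + 1) / 2 = j by omega, Pi.mulSingle_eq_same, if_neg (by omega)]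
      rw [e1, e2]
      unfold word
      rw [if_pos (by omega), if_neg (by omega)]
      exact no_solution _
    have hfin : {j | (h 0 : ℕ → Equiv.Perm (Fin 3)) j ≠ 1}.Finite := (h 0).2
    have : {j | (h 0 : ℕ → Equiv.Perm (Fin 3)) j ≠ 1} = Set.univ := Set.eq_univ_of_forall hne
    rw [this] at hfin
    exact Set.infinite_univ hfin

end Pool.Agent.Results.MP_d8de41_al.SymThreePower
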